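import Pool.Agent.Helper1.MT.Defs

/-!
# Project MT, module MT-A: the one-dimensional sums
-/

set_option autoImplicit false

open Finset

namespace Pool.Agent.Helper28.MT

open Pool.Agent.Helper1.MT

/-! ### The step function -/

/-- The step function as a function of the size. -/
noncomputable def gJ (κ : ℝ) (J : ℕ) (x : ℝ) : ℝ :=
  (∑ j ∈ range J, if x ≤ 2 ^ j / κ then (1 / 2 : ℝ) ^ (j + 1) else 0) +
    if x ≤ 2 ^ J / κ then (1 / 2 : ℝ) ^ J else 0

/-- The square of the step function. -/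
noncomputable def hJ (κ : ℝ) (J : ℕ) (x : ℝ) : ℝ :=
  (∑ j ∈ range J, if x ≤ 2 ^ j / κ then (3 / 4 : ℝ) * (1 / 4) ^ j else 0) +
    if x ≤ 2 ^ J / κ then (1 / 4 : ℝ) ^ J else 0

theorem thr_mono {κ : ℝ} (hκ : 0 < κ) {i j : ℕ} (h : i ≤ j) :
    (2 : ℝ) ^ i / κ ≤ 2 ^ j / κ := by
  apply div_le_div_of_nonneg_right _ hκ.le
  exact pow_le_pow_right₀ (by norm_num) h

theorem gJ_val {κ : ℝ} (hκ : 0 < κ) (J : ℕ) (x : ℝ) :
    (2 ^ J / κ < x ∧ gJ κ J x = 0 ∧ hJ κ J x = 0) ∨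
      ∃ j ≤ J, x ≤ 2 ^ j / κ ∧ gJ κ J x = (1 / 2) ^ j ∧ hJ κ J x = (1 / 4) ^ j := by
  induction J with
  | zero =>
    by_cases hx : x ≤ 2 ^ 0 / κ
    · right
      exact ⟨0, le_rfl, hx, by simp only [gJ, hx]; simp, by simp only [hJ, hx]; simp⟩
    · left
      exact ⟨not_le.1 hx, by simp only [gJ, hx]; simp, by simp only [hJ, hx]; simp⟩
  | succ J ih =>
    have hg : gJ κ (J + 1) x = gJ κ J x + ((if x ≤ 2 ^ J / κ then (1 / 2 : ℝ) ^ (J + 1) else 0) -
        (if x ≤ 2 ^ J / κ then (1 / 2 : ℝ) ^ J else 0) +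
        if x ≤ 2 ^ (J + 1) / κ then (1 / 2 : ℝ) ^ (J + 1) else 0) := by
      unfold gJ
      rw [sum_range_succ]
      ring
    have hh : hJ κ (J + 1) x = hJ κ J x + ((if x ≤ 2 ^ J / κ then (3 / 4 : ℝ) * (1 / 4) ^ J else 0) -
        (if x ≤ 2 ^ J / κ then (1 / 4 : ℝ) ^ J else 0) +
        if x ≤ 2 ^ (J + 1) / κ then (1 / 4 : ℝ) ^ (J + 1) else 0) := by
      unfold hJ
      rw [sum_range_succ]
      ring
    rcases ih with ⟨h1, h2, h3⟩ | ⟨j, hj, h1, h2, h3⟩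
    · by_cases hx : x ≤ 2 ^ (J + 1) / κ
      · right
        refine ⟨J + 1, le_rfl, hx, ?_, ?_⟩
        · rw [hg, h2, if_neg (not_le.2 h1), if_neg (not_le.2 h1), if_pos hx]
          ring
        · rw [hh, h3, if_neg (not_le.2 h1), if_neg (not_le.2 h1), if_pos hx]
          ring
      · left
        refine ⟨not_le.1 hx, ?_, ?_⟩
        · rw [hg, h2, if_neg (not_le.2 h1), if_neg (not_le.2 h1), if_neg hx]
          ring
        · rw [hh, h3, if_neg (not_le.2 h1), if_neg (not_le.2 h1), if_neg hx]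
          ring
    · right
      have hxJ : x ≤ 2 ^ J / κ := h1.trans (thr_mono hκ hj)
      have hxJ' : x ≤ 2 ^ (J + 1) / κ := h1.trans (thr_mono hκ (by omega))
      refine ⟨j, by omega, h1, ?_, ?_⟩
      · rw [hg, h2, if_pos hxJ, if_pos hxJ, if_pos hxJ']
        ring
      · rw [hh, h3, if_pos hxJ, if_pos hxJ, if_pos hxJ']
        ring

theorem gJ_sq {κ : ℝ} (hκ : 0 < κ) (J : ℕ) (x : ℝ) : gJ κ J x ^ 2 = hJ κ J x := by
  rcases gJ_val hκ J x with ⟨_, h2, h3⟩ | ⟨j, _, _, h2, h3⟩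
  · rw [h2, h3]
    norm_num
  · rw [h2, h3, ← pow_mul, mul_comm, pow_mul]
    norm_num

theorem gJ_nonneg (κ : ℝ) (J : ℕ) (x : ℝ) : 0 ≤ gJ κ J x := by
  unfold gJ
  apply add_nonneg
  · apply sum_nonneg
    intro j _
    split_ifs
    · positivity
    · exact le_rfl
  · split_ifs
    · positivity
    · exact le_rfl

theorem gJ_le {κ : ℝ} (hκ : 0 < κ) (J : ℕ) (x : ℝ) : gJ κ J x ≤ 1 := by
  rcases gJ_val hκ J x with ⟨_, h2, _⟩ | ⟨j, _, _, h2, _⟩
  · rw [h2]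
    norm_num
  · rw [h2]
    exact pow_le_one₀ (by norm_num) (by norm_num)

theorem gJ_anti (κ : ℝ) (J : ℕ) {x y : ℝ} (h : x ≤ y) : gJ κ J y ≤ gJ κ J x := by
  unfold gJ
  apply add_le_add
  · apply sum_le_sum
    intro j _
    split_ifs with h1 h2 h2
    · exact le_rfl
    · exact absurd (h.trans h1) h2
    · positivity
    · exact le_rfl
  · split_ifs with h1 h2 h2
    · exact le_rfl
    · exact absurd (h.trans h1) h2
    · positivity
    · exact le_rfl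

theorem gJ_supp {κ : ℝ} (hκ : 0 < κ) {J : ℕ} {x : ℝ} (h : gJ κ J x ≠ 0) : x ≤ 2 ^ J / κ := by
  rcases gJ_val hκ J x with ⟨_, h2, _⟩ | ⟨j, hj, h1, _, _⟩
  · exact absurd h2 h
  · exact h1.trans (thr_mono hκ hj)

theorem gJ_mul {κ : ℝ} (hκ : 0 < κ) (J : ℕ) (x : ℝ) : gJ κ J x * x ≤ 1 / κ := by
  rcases gJ_val hκ J x with ⟨_, h2, _⟩ | ⟨j, hj, h1, h2, _⟩
  · rw [h2, zero_mul]
    positivity
  · rw [h2]
    calc (1 / 2 : ℝ) ^ j * x ≤ (1 / 2) ^ j * (2 ^ j / κ) :=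
          mul_le_mul_of_nonneg_left h1 (by positivity)
      _ = ((1 / 2) * 2) ^ j / κ := by rw [mul_pow]; ring
      _ = 1 / κ := by norm_num

theorem sum_half (J : ℕ) : ∑ j ∈ range J, (1 / 2 : ℝ) ^ (j + 1) + (1 / 2) ^ J = 1 := by
  induction J with
  | zero => simp
  | succ J ih =>
    rw [sum_range_succ]
    have : (1 / 2 : ℝ) ^ (J + 1) = (1 / 2) ^ J / 2 := by rw [pow_succ]; ring
    linarith

theorem sum_quarter (J : ℕ) :
    ∑ j ∈ range J, (3 / 4 : ℝ) * (1 / 4) ^ j + (1 / 4) ^ J = 1 := by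
  induction J with
  | zero => simp
  | succ J ih =>
    rw [sum_range_succ]
    have : (1 / 4 : ℝ) ^ (J + 1) = (1 / 4) ^ J / 4 := by rw [pow_succ]; ring
    linarith

theorem sum_mainA (κ : ℝ) (J : ℕ) :
    ∑ j ∈ range J, (1 / 2 : ℝ) ^ (j + 1) * (2 ^ j / κ) + (1 / 2) ^ J * (2 ^ J / κ) =
      ((J : ℝ) + 2) / (2 * κ) := by
  have h1 : ∀ j : ℕ, (1 / 2 : ℝ) ^ j * (2 ^ j / κ) = 1 / κ := by
    intro j
    calc (1 / 2 : ℝ) ^ j * (2 ^ j / κ) = ((1 / 2) * 2) ^ j / κ := by rw [mul_pow]; ring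
      _ = 1 / κ := by norm_num
  have h2 : ∀ j ∈ range J, (1 / 2 : ℝ) ^ (j + 1) * (2 ^ j / κ) = 1 / (2 * κ) := by
    intro j _
    rw [pow_succ]
    calc (1 / 2 : ℝ) ^ j * (1 / 2) * (2 ^ j / κ) = (1 / 2) * ((1 / 2 : ℝ) ^ j * (2 ^ j / κ)) := by
          ring
      _ = 1 / (2 * κ) := by rw [h1]; ring
  rw [sum_congr rfl h2, sum_const, card_range, h1, nsmul_eq_mul]
  ring

theorem sum_mainB (κ : ℝ) (J : ℕ) :
    ∑ j ∈ range J, (3 / 4 : ℝ) * (1 / 4) ^ j * (2 ^ j / κ) + (1 / 4) ^ J * (2 ^ J / κ) =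
      (3 / 2 - (1 / 2) * (1 / 2) ^ J) / κ := by
  have h1 : ∀ j : ℕ, (1 / 4 : ℝ) ^ j * (2 ^ j / κ) = (1 / 2) ^ j / κ := by
    intro j
    calc (1 / 4 : ℝ) ^ j * (2 ^ j / κ) = ((1 / 4) * 2) ^ j / κ := by rw [mul_pow]; ring
      _ = (1 / 2) ^ j / κ := by norm_num
  have h2 : ∀ j ∈ range J, (3 / 4 : ℝ) * (1 / 4) ^ j * (2 ^ j / κ) =
      (3 / 4) * (1 / 2) ^ j / κ := by
    intro j _
    rw [mul_assoc, h1]
    ring
  rw [sum_congr rfl h2, h1]
  have h3 : ∀ J : ℕ, ∑ j ∈ range J, (3 / 4 : ℝ) * (1 / 2) ^ j / κ =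
      (3 / 2 - (3 / 2) * (1 / 2) ^ J) / κ := by
    intro J
    induction J with
    | zero => simp
    | succ J ih =>
      rw [sum_range_succ, ih, pow_succ]
      ring
  rw [h3]
  ring

/-! ### Sums over sets of bounded size -/

/-- The sum of the weights of the sets of size at most `θ`. -/
noncomputable def FF (R W : ℕ) (θ : ℝ) : ℝ :=
  ∑ S ∈ (univ : Finset (Finset (PS R W))).filter (fun S => T (tp R W) S ≤ θ), ws (wp R W) S

theorem ps_prime {R W : ℕ} (p : PS R W) : (p : ℕ).Prime := by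
  have := p.2
  simp only [PS, mem_filter] at this
  exact this.2.1

theorem ps_not_dvd {R W : ℕ} (p : PS R W) : ¬ (p : ℕ) ∣ W := by
  have := p.2
  simp only [PS, mem_filter] at this
  exact this.2.2

theorem T_eq {R W : ℕ} (S : Finset (PS R W)) :
    T (tp R W) S = Real.log ((∏ p ∈ S, (p : ℕ) : ℕ) : ℝ) / Real.log R := by
  unfold T tp
  rw [← sum_div]
  congr 1
  push_cast
  rw [Real.log_prod]
  intro p _
  exact_mod_cast (ps_prime p).ne_zero

theorem ws_eq {R W : ℕ} (S : Finset (PS R W)) :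
    ws (wp R W) S = 1 / ((∏ p ∈ S, (p : ℕ) : ℕ) : ℝ) := by
  unfold ws wp
  push_cast
  rw [prod_div_distrib, prod_const_one]

theorem T_le_iff {R W : ℕ} (hR : 3 ≤ R) (S : Finset (PS R W)) (θ : ℝ) :
    T (tp R W) S ≤ θ ↔ ((∏ p ∈ S, (p : ℕ) : ℕ) : ℝ) ≤ (R : ℝ) ^ θ := by
  have hR0 : (0 : ℝ) < R := by positivity
  have hlR : 0 < Real.log R := Real.log_pos (by exact_mod_cast (by omega : 1 < R))
  have hP : (0 : ℝ) < ((∏ p ∈ S, (p : ℕ) : ℕ) : ℝ) := by
    exact_mod_cast prod_pos fun p _ => (ps_prime p).pos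
  rw [T_eq, div_le_iff₀ hlR, ← Real.log_rpow hR0,
    Real.log_le_log_iff hP (Real.rpow_pos_of_pos hR0 θ)]

/-- The primes dividing `d`. -/
def dv (R W d : ℕ) : Finset (PS R W) := univ.filter (fun p : PS R W => (p : ℕ) ∣ d)

theorem mem_dv {R W d : ℕ} {p : PS R W} : p ∈ dv R W d ↔ (p : ℕ) ∣ d := by
  simp [dv]

theorem FF_eq {R W : ℕ} (hR : 3 ≤ R) {θ : ℝ} (hθ : θ ≤ 1) :
    FF R W θ = ∑ d ∈ (Icc 1 ⌊(R : ℝ) ^ θ⌋₊).filter (fun d => Squarefree d ∧ d.Coprime W),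
      1 / (d : ℝ) := by
  classical
  unfold FF
  have hR1 : (1 : ℝ) ≤ R := by exact_mod_cast (by omega : 1 ≤ R)
  have key : ∀ d : ℕ, d ∈ (Icc 1 ⌊(R : ℝ) ^ θ⌋₊).filter
      (fun d => Squarefree d ∧ d.Coprime W) →
      ∏ p ∈ dv R W d, (p : ℕ) = d := by
    intro d hd
    rw [mem_filter, mem_Icc] at hd
    obtain ⟨⟨h1, h2⟩, h3, h4⟩ := hd
    have hdR : d ≤ R := by
      have h5 : (d : ℝ) ≤ (R : ℝ) ^ θ := (Nat.le_floor_iff (by positivity)).1 h2
      have h6 : (R : ℝ) ^ θ ≤ (R : ℝ) ^ (1 : ℝ) := Real.rpow_le_rpow_of_exponent_le hR1 hθ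
      rw [Real.rpow_one] at h6
      exact_mod_cast h5.trans h6
    have h7 : ∏ p ∈ dv R W d, (p : ℕ) = ∏ p ∈ d.primeFactors, p := by
      refine prod_bij (fun (p : PS R W) _ => (p : ℕ)) ?_ ?_ ?_ ?_
      · intro p hp
        rw [mem_dv] at hp
        rw [Nat.mem_primeFactors]
        exact ⟨ps_prime p, hp, by omega⟩
      · intro p _ q _ h
        exact Subtype.ext h
      · intro q hq
        rw [Nat.mem_primeFactors] at hq
        have hqR : q ≤ R := (Nat.le_of_dvd (by omega) hq.2.1).trans hdR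
        have hqW : ¬ q ∣ W := by
          intro h
          have h8 := Nat.dvd_gcd hq.2.1 h
          rw [h4] at h8
          exact hq.1.one_lt.ne' (Nat.dvd_one.1 h8)
        refine ⟨⟨q, ?_⟩, ?_, rfl⟩
        · simp only [PS, mem_filter, mem_range]
          exact ⟨by omega, hq.1, hqW⟩
        · rw [mem_dv]
          exact hq.2.1
      · intro p _
        rfl
    rw [h7]
    exact Nat.prod_primeFactors_of_squarefree h3
  refine sum_bij' (fun S _ => ∏ p ∈ S, (p : ℕ))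
    (fun d _ => dv R W d) ?_ ?_ ?_ ?_ ?_
  · intro S hS
    rw [mem_filter] at hS
    have h1 := (T_le_iff hR S θ).1 hS.2
    rw [mem_filter, mem_Icc]
    refine ⟨⟨?_, ?_⟩, ?_, ?_⟩
    · exact Nat.one_le_iff_ne_zero.2 (prod_ne_zero_iff.2 fun p _ => (ps_prime p).ne_zero)
    · exact Nat.le_floor h1
    · apply Finset.squarefree_prod_of_pairwise_isCoprime
      · intro p _ q _ hpq
        show IsRelPrime (p : ℕ) (q : ℕ)
        rw [← Nat.coprime_iff_isRelPrime]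
        exact (Nat.coprime_primes (ps_prime p) (ps_prime q)).2 fun h => hpq (Subtype.ext h)
      · intro p _
        exact (ps_prime p).prime.squarefree
    · apply Nat.Coprime.prod_left
      intro p _
      exact ((ps_prime p).coprime_iff_not_dvd).2 (ps_not_dvd p)
  · intro d hd
    have h1 := key d hd
    rw [mem_filter]
    refine ⟨mem_univ _, ?_⟩
    rw [T_le_iff hR, h1]
    rw [mem_filter, mem_Icc] at hd
    exact (Nat.le_floor_iff (by positivity)).1 hd.1.2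
  · intro S _
    ext p
    rw [mem_dv]
    constructor
    · intro h
      rw [(ps_prime p).prime.dvd_finsetProd_iff] at h
      obtain ⟨q, hq, hpq⟩ := h
      have : p = q := Subtype.ext ((Nat.prime_dvd_prime_iff_eq (ps_prime p) (ps_prime q)).1 hpq)
      rw [this]
      exact hq
    · intro hp
      exact dvd_prod_of_mem _ hp
  · intro d hd
    exact key d hd
  · intro S _
    exact ws_eq S

/-- Sums of step functions. -/
theorem sum_step {R W : ℕ} (κ : ℝ) (J : ℕ) (a : ℕ → ℝ) (b : ℝ) :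
    ∑ S : Finset (PS R W), ((∑ j ∈ range J, if T (tp R W) S ≤ 2 ^ j / κ then a j else 0) +
      if T (tp R W) S ≤ 2 ^ J / κ then b else 0) * ws (wp R W) S =
      ∑ j ∈ range J, a j * FF R W (2 ^ j / κ) + b * FF R W (2 ^ J / κ) := by
  have h1 : ∀ (θ c : ℝ), ∑ S : Finset (PS R W), (if T (tp R W) S ≤ θ then c else 0) *
      ws (wp R W) S = c * FF R W θ := by
    intro θ c
    unfold FF
    rw [mul_sum, sum_filter]
    apply sum_congr rfl
    intro S _
    split_ifs <;> ring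
  simp only [add_mul, sum_add_distrib, sum_mul]
  rw [h1, sum_comm]
  congr 1
  apply sum_congr rfl
  intro j _
  exact h1 _ _

/-- The error of a combination of the sums. -/
theorem lin_err {κ L C : ℝ} (J : ℕ) (F : ℝ → ℝ) (hF : ∀ j ≤ J, |F (2 ^ j / κ) - 2 ^ j / κ * L| ≤ C)
    (a : ℕ → ℝ) (b : ℝ) (ha : ∀ j, 0 ≤ a j) (hb : 0 ≤ b) :
    |(∑ j ∈ range J, a j * F (2 ^ j / κ) + b * F (2 ^ J / κ)) -
      (∑ j ∈ range J, a j * (2 ^ j / κ) + b * (2 ^ J / κ)) * L| ≤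
      (∑ j ∈ range J, a j + b) * C := by
  have h1 : (∑ j ∈ range J, a j * F (2 ^ j / κ) + b * F (2 ^ J / κ)) -
      (∑ j ∈ range J, a j * (2 ^ j / κ) + b * (2 ^ J / κ)) * L =
      ∑ j ∈ range J, a j * (F (2 ^ j / κ) - 2 ^ j / κ * L) +
        b * (F (2 ^ J / κ) - 2 ^ J / κ * L) := by
    simp only [mul_sub, sum_sub_distrib, add_mul, sum_mul, mul_assoc]
    ring
  rw [h1]
  refine (abs_add_le _ _).trans ?_
  rw [add_mul]
  apply add_le_add
  · refine (abs_sum_le_sum_abs _ _).trans ?_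
    rw [sum_mul]
    apply sum_le_sum
    intro j hj
    rw [abs_mul, abs_of_nonneg (ha j)]
    exact mul_le_mul_of_nonneg_left (hF j (mem_range.1 hj).le) (ha j)
  · rw [abs_mul, abs_of_nonneg hb]
    exact mul_le_mul_of_nonneg_left (hF J le_rfl) hb

theorem gam_eq {R W : ℕ} (K J : ℕ) (S : Finset (PS R W)) :
    gam K J S = gJ (Kp K J) J (T (tp R W) S) := rfl

/-- The sum of the squares of the weights. -/
theorem sq_le {R W D0 : ℕ} (hD : 2 ≤ D0) (h : ∀ p : ℕ, p.Prime → p < D0 → p ∣ W) :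
    ∑ p : PS R W, wp R W p ^ 2 ≤ 2 / D0 := by
  have hD' : (2 : ℝ) ≤ D0 := by exact_mod_cast hD
  have h1 : ∀ n : ℕ, D0 ≤ n → ∑ k ∈ Ico D0 n, (1 / (k : ℝ)) ^ 2 ≤
      1 / ((D0 : ℝ) - 1) - 1 / ((n : ℝ) - 1) := by
    intro n hn
    induction n, hn using Nat.le_induction with
    | base => simp
    | succ n hn ih =>
      rw [sum_Ico_succ_top hn]
      have hn' : (2 : ℝ) ≤ n := by exact_mod_cast hD.trans hn
      have h2 : (1 / (n : ℝ)) ^ 2 ≤ 1 / ((n : ℝ) - 1) - 1 / (((n + 1 : ℕ) : ℝ) - 1) := by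
        push_cast
        have h3 : 1 / ((n : ℝ) - 1) - 1 / ((n : ℝ) + 1 - 1) = 1 / (((n : ℝ) - 1) * n) := by
          have h4 : (n : ℝ) - 1 ≠ 0 := by linarith
          have h5 : (n : ℝ) ≠ 0 := by linarith
          rw [add_sub_cancel_right, div_sub_div _ _ h4 h5]
          congr 1
          ring
        rw [h3, div_pow, one_pow]
        apply div_le_div_of_nonneg_left (by norm_num)
        · exact mul_pos (by linarith) (by linarith)
        · nlinarith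
      linarith
  have h2 : ∑ p : PS R W, wp R W p ^ 2 ≤ ∑ k ∈ Ico D0 (max D0 (R + 1)), (1 / (k : ℝ)) ^ 2 := by
    have h3 : ∑ p : PS R W, wp R W p ^ 2 = ∑ p ∈ PS R W, (1 / (p : ℝ)) ^ 2 := by
      rw [← sum_coe_sort (PS R W)]
      rfl
    rw [h3]
    apply sum_le_sum_of_subset_of_nonneg
    · intro p hp
      rw [mem_Ico]
      simp only [PS, mem_filter, mem_range] at hp
      constructor
      · by_contra hlt
        exact hp.2.2 (h p hp.2.1 (not_le.1 hlt))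
      · exact lt_of_lt_of_le hp.1 (le_max_right _ _)
    · intro k _ _
      positivity
  have h4 := h1 (max D0 (R + 1)) (le_max_left _ _)
  have h5 : (2 : ℝ) ≤ ((max D0 (R + 1) : ℕ) : ℝ) := by exact_mod_cast hD.trans (le_max_left _ _)
  have h6 : 0 ≤ 1 / (((max D0 (R + 1) : ℕ) : ℝ) - 1) := by
    apply div_nonneg (by norm_num)
    linarith
  have h7 : 1 / ((D0 : ℝ) - 1) ≤ 2 / D0 := by
    rw [div_le_div_iff₀ (by linarith) (by linarith)]
    linarith
  linarith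

theorem D0_ge {K D0 : ℕ} (hK : 0 < K) (hD : (K + 2) ^ 10 ≤ D0) :
    6561 * (K + 2) ^ 2 ≤ D0 := by
  have h1 : (K + 2) ^ 10 = (K + 2) ^ 8 * (K + 2) ^ 2 := (Nat.pow_add (K + 2) 8 2)
  have h2 : 3 ^ 8 ≤ (K + 2) ^ 8 := Nat.pow_le_pow_left (Nat.succ_le_succ (Nat.succ_le_succ hK)) 8
  rw [h1] at hD
  refine le_trans (Nat.mul_le_mul_right _ ?_) hD
  exact le_trans (by norm_num) h2

theorem good {K J D0 W R : ℕ} (hK : 0 < K) (hJ : 10 * 2 ^ J ≤ 8 * K * (J + 2))
    (hD : (K + 2) ^ 10 ≤ D0) (h : ∀ p : ℕ, p.Prime → p < D0 → p ∣ W) :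
    Good K (wp R W) (tp R W) (gam K J) (2 ^ J / Kp K J) (2 / D0) := by
  have hκ : 0 < Kp K J := by unfold Kp; positivity
  have hD2 : 6561 * (K + 2) ^ 2 ≤ D0 := D0_ge hK hD
  clear hD
  have hD3 : (6561 : ℝ) * ((K : ℝ) + 2) ^ 2 ≤ D0 := by exact_mod_cast hD2
  have hK0 : (1 : ℝ) ≤ K := by exact_mod_cast hK
  have hD4 : (0 : ℝ) < D0 := by nlinarith
  have hpD : ∀ p : PS R W, (D0 : ℝ) ≤ ((p : ℕ) : ℝ) := by
    intro p
    by_contra hlt
    rw [not_le] at hlt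
    exact ps_not_dvd p (h p (ps_prime p) (by exact_mod_cast hlt))
  have htp : ∀ p : PS R W, 0 ≤ tp R W p := by
    intro p
    unfold tp
    exact div_nonneg (Real.log_natCast_nonneg _) (Real.log_natCast_nonneg _)
  have hT : ∀ S S' : Finset (PS R W), S ⊆ S' → T (tp R W) S ≤ T (tp R W) S' := by
    intro S S' hS
    exact sum_le_sum_of_subset_of_nonneg hS fun p _ _ => htp p
  refine ⟨?_, ?_, htp, ?_, ?_, ?_, ?_, ?_, ?_, ?_, ?_⟩
  · intro p
    unfold wp
    positivity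
  · intro p
    unfold wp
    have h1 := hpD p
    rw [mul_one_div, div_le_one (by linarith)]
    nlinarith
  · intro S
    rw [gam_eq]
    exact gJ_nonneg _ _ _
  · intro S
    rw [gam_eq]
    exact gJ_le hκ _ _
  · intro S S' hS
    rw [gam_eq, gam_eq]
    exact gJ_anti _ _ (hT S S' hS)
  · intro S hS
    rw [gam_eq] at hS
    exact gJ_supp hκ hS
  · apply sq_le _ h
    nlinarith
  · rw [← mul_div_assoc, div_le_one hD4]
    nlinarith
  · positivity
  · have h1 : (10 : ℝ) * 2 ^ J ≤ 8 * K * (J + 2) := by exact_mod_cast hJ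
    unfold Kp at *
    rw [div_le_div_iff₀ hκ (by norm_num)]
    linarith

theorem oneDim (hF : SqfreeSum) : OneDim := by
  intro K J D0 W hK hJ hD hW hp
  obtain ⟨c, C, hc, hC, hcW, hS⟩ := hF W hW
  refine ⟨c, hc, hcW, ?_⟩
  have hκ : 0 < Kp K J := by unfold Kp; positivity
  have hK0 : (1 : ℝ) ≤ K := by exact_mod_cast hK
  have hκ1 : 1 ≤ Kp K J := by
    unfold Kp
    have : (0 : ℝ) ≤ J := by positivity
    nlinarith
  refine ⟨max 3 ⌈Real.exp (10 * Kp K J * C / c)⌉₊, le_max_left _ _, ?_⟩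
  intro R hR
  have hR3 : 3 ≤ R := (le_max_left _ _).trans hR
  have hRe : Real.exp (10 * Kp K J * C / c) ≤ R :=
    (Nat.le_ceil _).trans (by exact_mod_cast (le_max_right _ _).trans hR)
  have hR0 : (0 : ℝ) < R := by positivity
  have hlog : 10 * Kp K J * C ≤ c * Real.log R := by
    have h1 := (Real.le_log_iff_exp_le hR0).2 hRe
    rw [div_le_iff₀ hc] at h1
    linarith
  set L := c * Real.log R with hL
  set κ := Kp K J with hκd
  have hCL : C ≤ 1 / 10 * (L / κ) := by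
    have : 1 / 10 * (L / κ) = L / (10 * κ) := by field_simp
    rw [this, le_div_iff₀ (by positivity)]
    linarith
  have hLκ : 0 < L / κ := by linarith
  have hL0 : 0 < L := by
    have := mul_pos hLκ hκ
    rwa [div_mul_cancel₀ _ hκ.ne'] at this
  have hG := good (R := R) hK hJ hD hp
  have hθ : (2 : ℝ) ^ J / κ ≤ 1 / 10 := hG.tau_le
  have hFF : ∀ θ : ℝ, 0 ≤ θ → θ ≤ 1 → |FF R W θ - θ * L| ≤ C := by
    intro θ h0 h1
    rw [FF_eq hR3 h1]
    have h2 := hS ((R : ℝ) ^ θ) (Real.one_le_rpow (by exact_mod_cast (by omega : 1 ≤ R)) h0)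
    rw [Real.log_rpow hR0] at h2
    have h3 : θ * L = c * (θ * Real.log R) := by rw [hL]; ring
    rw [h3]
    exact h2
  have hFj : ∀ j ≤ J, |FF R W (2 ^ j / κ) - 2 ^ j / κ * L| ≤ C := by
    intro j hj
    exact hFF _ (by positivity) ((thr_mono hκ hj).trans (hθ.trans (by norm_num)))
  -- the sum A1
  have hA : |A1 (wp R W) (gam K J) - ((J : ℝ) + 2) / (2 * κ) * L| ≤ C := by
    have h1 : A1 (wp R W) (gam K J) = ∑ j ∈ range J, (1 / 2 : ℝ) ^ (j + 1) * FF R W (2 ^ j / κ) +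
        (1 / 2) ^ J * FF R W (2 ^ J / κ) := by
      rw [← sum_step]
      rfl
    have h2 := lin_err (κ := κ) J (FF R W) hFj (fun j => (1 / 2 : ℝ) ^ (j + 1)) ((1 / 2) ^ J)
      (fun j => by positivity) (by positivity)
    rw [sum_mainA, sum_half, one_mul] at h2
    rw [h1]
    exact h2
  have hB : |B1 (wp R W) (gam K J) - (3 / 2 - (1 / 2) * (1 / 2) ^ J) / κ * L| ≤ C := by
    have h1 : B1 (wp R W) (gam K J) =
        ∑ j ∈ range J, ((3 / 4 : ℝ) * (1 / 4) ^ j) * FF R W (2 ^ j / κ) +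
        (1 / 4) ^ J * FF R W (2 ^ J / κ) := by
      rw [← sum_step]
      unfold B1
      apply sum_congr rfl
      intro S _
      rw [gam_eq, gJ_sq hκ]
      rfl
    have h2 := lin_err (κ := κ) J (FF R W) hFj (fun j => (3 / 4 : ℝ) * (1 / 4) ^ j) ((1 / 4) ^ J)
      (fun j => by positivity) (by positivity)
    rw [sum_mainB, sum_quarter, one_mul] at h2
    rw [h1]
    exact h2
  have hAm : ((J : ℝ) + 2) / (2 * κ) * L = ((J : ℝ) + 2) / 2 * (L / κ) := by
    field_simp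
  have hBm : (3 / 2 - (1 / 2) * (1 / 2) ^ J) / κ * L = (3 / 2 - (1 / 2) * (1 / 2 : ℝ) ^ J) * (L / κ) := by
    field_simp
  have hJ0 : (0 : ℝ) ≤ J := by positivity
  have hhalf : (0 : ℝ) ≤ (1 / 2) ^ J := by positivity
  have hhalf1 : (1 / 2 : ℝ) ^ J ≤ 1 := pow_le_one₀ (by norm_num) (by norm_num)
  rw [abs_le, hAm] at hA
  rw [abs_le, hBm] at hB
  have hAu : A1 (wp R W) (gam K J) ≤ 11 / 10 * ((J : ℝ) + 2) / 2 * (L / κ) := by nlinarith
  have hAl : 9 / 10 * ((J : ℝ) + 2) / 2 * (L / κ) ≤ A1 (wp R W) (gam K J) := by nlinarith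
  have hBl : 9 / 10 * (L / κ) ≤ B1 (wp R W) (gam K J) := by nlinarith
  have hBu : B1 (wp R W) (gam K J) ≤ 16 / 10 * (L / κ) := by nlinarith
  have hM : M1 (wp R W) (tp R W) (gam K J) ≤ A1 (wp R W) (gam K J) * (1 / κ) := by
    unfold M1 A1
    rw [sum_mul]
    apply sum_le_sum
    intro S _
    have h1 : gam K J S * T (tp R W) S ≤ 1 / κ := by
      rw [gam_eq]
      exact gJ_mul hκ _ _
    have h2 : 0 ≤ gam K J S * ws (wp R W) S := by
      apply mul_nonneg (hG.g_nonneg S)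
      unfold ws
      exact prod_nonneg fun p _ => hG.w_nonneg p
    calc gam K J S ^ 2 * T (tp R W) S * ws (wp R W) S =
          (gam K J S * ws (wp R W) S) * (gam K J S * T (tp R W) S) := by ring
      _ ≤ (gam K J S * ws (wp R W) S) * (1 / κ) := mul_le_mul_of_nonneg_left h1 h2
      _ = gam K J S * ws (wp R W) S * (1 / κ) := by ring
  refine ⟨hG, ?_, ?_, ?_, ?_, ?_, ?_⟩
  · have hκe : κ = 8 * (K : ℝ) * (J + 2) := rfl
    have h1 : ((K : ℝ) - 1) * M1 (wp R W) (tp R W) (gam K J) ≤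
        ((K : ℝ) - 1) * (A1 (wp R W) (gam K J) * (1 / κ)) :=
      mul_le_mul_of_nonneg_left hM (by linarith)
    have hA0 : 0 ≤ A1 (wp R W) (gam K J) := le_trans (by positivity) hAl
    have h2 : ((K : ℝ) - 1) * (A1 (wp R W) (gam K J) * (1 / κ)) ≤
        K * (A1 (wp R W) (gam K J) * (1 / κ)) := by
      apply mul_le_mul_of_nonneg_right (by linarith)
      positivity
    have h3 : (K : ℝ) * (A1 (wp R W) (gam K J) * (1 / κ)) ≤
        K * ((11 / 10 * ((J : ℝ) + 2) / 2 * (L / κ)) * (1 / κ)) := by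
      apply mul_le_mul_of_nonneg_left _ (by linarith)
      exact mul_le_mul_of_nonneg_right hAu (by positivity)
    have h4 : (K : ℝ) * ((11 / 10 * ((J : ℝ) + 2) / 2 * (L / κ)) * (1 / κ)) =
        11 / 160 * (L / κ) := by
      have h5 : (K : ℝ) * ((J : ℝ) + 2) * (1 / κ) = 1 / 8 := by
        rw [hκe]
        have : (K : ℝ) ≠ 0 := by linarith
        have : (J : ℝ) + 2 ≠ 0 := by linarith
        field_simp
      calc (K : ℝ) * ((11 / 10 * ((J : ℝ) + 2) / 2 * (L / κ)) * (1 / κ)) =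
          11 / 20 * (L / κ) * ((K : ℝ) * ((J : ℝ) + 2) * (1 / κ)) := by ring
        _ = 11 / 160 * (L / κ) := by rw [h5]; ring
    have h5 : (1 / 10 : ℝ) * (9 / 10) * (9 / 10 * (L / κ)) ≤
        1 / 10 * (1 - 2 ^ J / κ) * B1 (wp R W) (gam K J) := by
      apply mul_le_mul _ hBl (by positivity)
      · nlinarith
      · nlinarith
    linarith
  · calc 9 / 10 * ((J : ℝ) + 2) / (2 * κ) * L = 9 / 10 * ((J : ℝ) + 2) / 2 * (L / κ) := by
          field_simp
      _ ≤ _ := hAl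
  · calc A1 (wp R W) (gam K J) ≤ 11 / 10 * ((J : ℝ) + 2) / 2 * (L / κ) := hAu
      _ = 11 / 10 * ((J : ℝ) + 2) / (2 * κ) * L := by field_simp
  · calc 9 / 10 / κ * L = 9 / 10 * (L / κ) := by field_simp
      _ ≤ _ := hBl
  · calc B1 (wp R W) (gam K J) ≤ 16 / 10 * (L / κ) := hBu
      _ = 16 / 10 / κ * L := by field_simp
  · have h1 := hFF 1 (by norm_num) le_rfl
    rw [abs_le, one_mul] at h1
    have h2 : V0 (wp R W) (tp R W) = FF R W 1 := rfl
    rw [h2]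
    have h3 : L / κ ≤ L := div_le_self hL0.le hκ1
    linarith

end Pool.Agent.Helper28.MT
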